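import Mathlib

set_option autoImplicit false

namespace Pool.Agent.Results.MP_80da57_nt.Counter

open Filter Topology

/-- The `K`-points of the projective plane. -/
def Plane (K : Type) [Field K] : Type := Projectivization K (Fin 3 → K)

/-- The quotient topology from `K ^ 3` minus the origin. -/
instance topPlane (K : Type) [Field K] [TopologicalSpace K] : TopologicalSpace (Plane K) :=
  TopologicalSpace.coinduced (Projectivization.mk' K) inferInstance

/-- Coordinatewise embedding of `ℚ ^ 3` in `K ^ 3`. -/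
def castMap (K : Type) [Field K] [CharZero K] :
    (Fin 3 → ℚ) →ₛₗ[Rat.castHom K] (Fin 3 → K) where
  toFun v i := (v i : K)
  map_add' v w := by funext i; simp
  map_smul' c v := by funext i; simp

theorem castMap_inj (K : Type) [Field K] [CharZero K] : Function.Injective (castMap K) :=
  fun _ _ h => funext fun i => Rat.cast_injective (α := K) (congrFun h i)

/-- Rational points as `K`-points. -/
def bc (K : Type) [Field K] [CharZero K] : Plane ℚ → Plane K :=
  Projectivization.map (castMap K) (castMap_inj K)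

instance factPrime (p : Nat.Primes) : Fact (p : ℕ).Prime := ⟨p.2⟩

/-- Adelic points of the projective plane over `ℚ`, with the product topology. -/
abbrev Adelic : Type := Plane ℝ × ((p : Nat.Primes) → Plane (Padic (p : ℕ)))

/-- The diagonal embedding. -/
noncomputable def diag (x : Plane ℚ) : Adelic := (bc ℝ x, fun p => bc (Padic (p : ℕ)) x)

/-- The `K`-points of the line with rational equation `a`. -/
def line (K : Type) [Field K] (a : Fin 3 → ℚ) : Set (Plane K) :=
  {x | ∀ v ∈ Projectivization.submodule x, ∑ i, (a i : K) * v i = 0}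

/-- The adelic points of the line. -/
def lineA (a : Fin 3 → ℚ) : Set Adelic :=
  {x | x.1 ∈ line ℝ a ∧ ∀ p : Nat.Primes, x.2 p ∈ line (Padic (p : ℕ)) a}

/-- The automorphism of the plane given by a linear automorphism of `ℚ ^ 3`. -/
def aut (A : (Fin 3 → ℚ) ≃ₗ[ℚ] (Fin 3 → ℚ)) : Plane ℚ → Plane ℚ :=
  Projectivization.map A.toLinearMap A.injective

/-- Forward orbit. -/
def orbit (f : Plane ℚ → Plane ℚ) (P : Plane ℚ) : Set (Plane ℚ) := Set.range fun n : ℕ => f^[n] P

def AA : (Fin 3 → ℚ) ≃ₗ[ℚ] (Fin 3 → ℚ) where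
  toFun v := ![v 0 + v 2, v 1 + 2 * v 0 + v 2, v 2]
  invFun v := ![v 0 - v 2, v 1 - 2 * v 0 + v 2, v 2]
  map_add' v w := by ext i; fin_cases i <;> simp <;> ring
  map_smul' c v := by ext i; fin_cases i <;> simp <;> ring
  left_inv v := by ext i; fin_cases i <;> simp; ring
  right_inv v := by ext i; fin_cases i <;> simp; ring

def it (n : ℕ) (v : Fin 3 → ℚ) : Fin 3 → ℚ :=
  ![v 0 + n * v 2, v 1 + 2 * n * v 0 + n ^ 2 * v 2, v 2]

theorem iter (n : ℕ) (v : Fin 3 → ℚ) (hv : v ≠ 0) :
    ∃ h, (aut AA)^[n] (Projectivization.mk ℚ v hv) = Projectivization.mk ℚ (it n v) h := by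
  induction n with
  | zero =>
    have : it 0 v = v := by ext i; fin_cases i <;> simp [it]
    exact ⟨by rw [this]; exact hv, by simp only [this]; rfl⟩
  | succ n ih =>
    obtain ⟨h, e⟩ := ih
    have : AA (it n v) = it (n + 1) v := by
      ext i; fin_cases i <;> simp [it, AA] <;> ring
    refine ⟨by rw [← this]; exact fun h0 => h (AA.map_eq_zero_iff.1 h0), ?_⟩
    rw [Function.iterate_succ_apply', e]
    simp only [← this]
    rfl

theorem mem_line (K : Type) [Field K] (a : Fin 3 → ℚ) (v : Fin 3 → K) (hv : v ≠ 0) :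
    (Projectivization.mk K v hv : Plane K) ∈ line K a ↔ ∑ i, (a i : K) * v i = 0 := by
  constructor
  · intro h
    exact h v (by rw [Projectivization.submodule_mk]; exact Submodule.mem_span_singleton_self v)
  · intro h w hw
    rw [Projectivization.submodule_mk, Submodule.mem_span_singleton] at hw
    obtain ⟨c, rfl⟩ := hw
    simp only [Pi.smul_apply, smul_eq_mul, mul_left_comm _ c, ← Finset.mul_sum, h, mul_zero]

theorem tend (K : Type) [Field K] [TopologicalSpace K] (u : ℕ → Fin 3 → K) (hu : ∀ k, u k ≠ 0)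
    (w : Fin 3 → K) (hw : w ≠ 0) (h : Tendsto u atTop (𝓝 w)) :
    Tendsto (β := Plane K) (fun k => Projectivization.mk K (u k) (hu k)) atTop
      (𝓝 (Projectivization.mk K w hw)) := by
  have hc : Continuous (Y := Plane K) (Projectivization.mk' K) := continuous_coinduced_rng
  exact (hc.tendsto ⟨w, hw⟩).comp (f := fun k => ⟨u k, hu k⟩) (tendsto_subtype_rng.2 h)

theorem ne3 {K : Type} [Field K] (a b : K) : (![a, b, 1] : Fin 3 → K) ≠ 0 :=
  fun h => one_ne_zero (congrFun h 2)

theorem ne2 {K : Type} [Field K] (a b : K) : (![a, 1, b] : Fin 3 → K) ≠ 0 :=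
  fun h => one_ne_zero (congrFun h 1)

theorem orb (K : Type) [Field K] [CharZero K] (n : ℕ) :
    bc K ((aut AA)^[n] (Projectivization.mk ℚ ![0, 0, 1] (ne3 _ _))) =
      Projectivization.mk K ![(n : K), (n : K) ^ 2, 1] (ne3 _ _) := by
  obtain ⟨h, e⟩ := iter n ![0, 0, 1] (ne3 _ _)
  rw [e]
  have : castMap K (it n ![0, 0, 1]) = ![(n : K), (n : K) ^ 2, 1] := by
    ext i; fin_cases i <;> simp [castMap, it]
  simp only [← this]
  rfl

/-- An automorphism `f` of the projective plane over `ℚ`, a line `Y` that is not preperiodic and a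
rational point `P`, with an adelic point of `Y` in the adelic closure of the forward orbit of `P`
but not in the adelic closure of the orbit points on `Y`. -/
theorem result : ∃ (A : (Fin 3 → ℚ) ≃ₗ[ℚ] (Fin 3 → ℚ)) (a : Fin 3 → ℚ) (P : Plane ℚ), a ≠ 0 ∧
    (∀ m n : ℕ, (aut A)^[m] '' line ℚ a = (aut A)^[n] '' line ℚ a → m = n) ∧
    ∃ z ∈ lineA a, z ∈ closure (diag '' orbit (aut A) P) ∧
      z ∉ closure (diag '' (line ℚ a ∩ orbit (aut A) P)) := by
  refine ⟨AA, ![1, 0, 1], Projectivization.mk ℚ ![0, 0, 1] (ne3 _ _), ne3 _ _, ?_,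
    (Projectivization.mk ℝ ![0, 1, 0] (ne2 _ _),
      fun p => Projectivization.mk (Padic (p : ℕ)) ![-1, 1, 1] (ne3 _ _)), ⟨?_, fun p => ?_⟩, ?_, ?_⟩
  · intro m n h
    have h1 : (aut AA)^[m] (Projectivization.mk ℚ ![-1, 0, 1] (ne3 _ _)) ∈
        (aut AA)^[n] '' line ℚ ![1, 0, 1] := by
      rw [← h]
      exact ⟨_, (mem_line ℚ _ _ _).2 (by simp [Fin.sum_univ_three]), rfl⟩
    obtain ⟨x, hx, e⟩ := h1
    induction x using Projectivization.ind with
    | h v hv =>
    replace hx := (mem_line ℚ _ _ hv).1 hx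
    obtain ⟨h1, e1⟩ := iter n v hv
    obtain ⟨h2, e2⟩ := iter m ![-1, 0, 1] (ne3 _ _)
    rw [e1, e2] at e
    obtain ⟨c, hc⟩ := (Projectivization.mk_eq_mk_iff' ℚ _ _ _ _).1 e.symm
    have a0 := congrFun hc 0
    have a2 := congrFun hc 2
    simp [it, Fin.sum_univ_three] at a0 a2 hx
    have : (m : ℚ) = n := by linear_combination -a0 + (n - 1) * a2 + c * hx
    exact_mod_cast this
  · exact (mem_line ℝ _ _ _).2 (by simp [Fin.sum_univ_three])
  · exact (mem_line _ _ _ _).2 (by simp [Fin.sum_univ_three])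
  · refine mem_closure_of_tendsto (f := fun k : ℕ => diag ((aut AA)^[(k + 2).factorial - 1]
      (Projectivization.mk ℚ ![0, 0, 1] (ne3 _ _)))) (b := atTop) ?_
      (Eventually.of_forall fun k => ⟨_, ⟨_, rfl⟩, rfl⟩)
    have hge : ∀ k : ℕ, k + 1 ≤ (k + 2).factorial - 1 := fun k => by
      have := Nat.self_le_factorial (k + 2); omega
    refine Tendsto.prodMk_nhds ?_ (tendsto_pi_nhds.2 fun p => ?_)
    · simp only [orb]
      have t0 : Tendsto (fun k : ℕ => ((((k + 2).factorial - 1 : ℕ) : ℝ))⁻¹) atTop (𝓝 0) :=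
        tendsto_inv_atTop_zero.comp (tendsto_natCast_atTop_atTop.comp
          (tendsto_atTop_mono (fun k => (Nat.le_succ k).trans (hge k)) tendsto_id))
      have := tend ℝ (fun k => ![((((k + 2).factorial - 1 : ℕ) : ℝ))⁻¹, 1,
        ((((k + 2).factorial - 1 : ℕ) : ℝ))⁻¹ ^ 2]) (fun k => ne2 _ _) ![0, 1, 0] (ne2 _ _) (by
          rw [tendsto_pi_nhds]
          intro i
          fin_cases i
          · simpa using t0
          · simp
          · simpa using t0.pow 2)
      refine this.congr fun k => ?_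
      refine (Projectivization.mk_eq_mk_iff' ℝ _ _ _ _).2
        ⟨((((k + 2).factorial - 1 : ℕ) : ℝ))⁻¹ ^ 2, ?_⟩
      have h0 : (((k + 2).factorial - 1 : ℕ) : ℝ) ≠ 0 := by
        have := hge k
        exact_mod_cast (show (k + 2).factorial - 1 ≠ 0 by omega)
      generalize (((k + 2).factorial - 1 : ℕ) : ℝ) = x at h0
      ext i; fin_cases i <;> simp <;> field_simp
    · simp only [orb]
      have t0 : Tendsto (fun k : ℕ => (((k + 2).factorial : ℕ) : Padic (p : ℕ))) atTop (𝓝 0) := by
        rw [Metric.tendsto_atTop]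
        intro ε hε
        obtain ⟨m, hm⟩ := PadicInt.exists_pow_neg_lt (p : ℕ) hε
        refine ⟨(p : ℕ) ^ m, fun k hk => ?_⟩
        rw [dist_zero_right]
        refine lt_of_le_of_lt ?_ hm
        have := (Padic.norm_int_le_pow_iff_dvd (p := (p : ℕ)) ((k + 2).factorial : ℕ) m).2 (by
          exact_mod_cast Nat.dvd_factorial (pow_pos p.2.pos m) (by omega))
        exact_mod_cast this
      have t1 : Tendsto (fun k : ℕ => (((k + 2).factorial - 1 : ℕ) : Padic (p : ℕ))) atTop
          (𝓝 (-1)) := by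
        have := t0.sub_const 1
        rw [zero_sub] at this
        refine this.congr fun k => ?_
        rw [Nat.cast_sub (Nat.factorial_pos _), Nat.cast_one]
      refine tend _ _ (fun k => ne3 _ _) _ _ ?_
      rw [tendsto_pi_nhds]
      intro i
      fin_cases i
      · simpa using t1
      · simpa using t1.pow 2
      · simp
  · have : line ℚ ![1, 0, 1] ∩ orbit (aut AA) (Projectivization.mk ℚ ![0, 0, 1] (ne3 _ _)) = ∅ := by
      rw [Set.eq_empty_iff_forall_notMem]
      rintro _ ⟨h, n, rfl⟩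
      obtain ⟨h1, e1⟩ := iter n ![0, 0, 1] (ne3 _ _)
      simp only [e1] at h
      replace h := (mem_line ℚ _ _ h1).1 h
      simp [it, Fin.sum_univ_three] at h
      have : (0 : ℚ) ≤ n := by positivity
      linarith
    rw [this]; simp

end Pool.Agent.Results.MP_80da57_nt.Counter
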